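import Pool.Agent.Helper717.Hull1

/-! Points in strictly convex position in the plane can be reindexed in counterclockwise order. -/

set_option autoImplicit false

namespace Pool.Agent.W866.ELV

open Set Pool.Agent.Helper717.Hull1

lemma between (a b c : E2) (h : orient a b c = 0) : a ∈ convexHull ℝ ({b, c, c} : Set E2) ∨
    b ∈ convexHull ℝ ({a, c, c} : Set E2) ∨ c ∈ convexHull ℝ ({a, b, b} : Set E2) := by
  have hseg : ∀ p q r : E2, ∀ t : ℝ, 0 ≤ t → t ≤ 1 → r = (1 - t) • p + t • q →
      r ∈ convexHull ℝ ({p, q, q} : Set E2) := by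
    intro p q r t h0 h1 hr
    rw [hr]
    exact (convex_convexHull ℝ _) (subset_convexHull _ _ (by simp)) (subset_convexHull _ _ (by simp))
      (by linarith) h0 (by ring)
  by_cases hab : a = b
  · left
    apply subset_convexHull
    rw [hab]; simp
  · -- c = a + t (b - a)
    have hd : 0 < (b 0 - a 0) ^ 2 + (b 1 - a 1) ^ 2 := by
      by_contra hcon
      apply hab
      have h0 : (b 0 - a 0) ^ 2 = 0 := by nlinarith [sq_nonneg (b 0 - a 0), sq_nonneg (b 1 - a 1)]
      have h1 : (b 1 - a 1) ^ 2 = 0 := by nlinarith [sq_nonneg (b 0 - a 0), sq_nonneg (b 1 - a 1)]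
      ext i
      fin_cases i
      · have := pow_eq_zero_iff (two_ne_zero) |>.1 h0
        simp only [Fin.zero_eta]; linarith
      · have := pow_eq_zero_iff (two_ne_zero) |>.1 h1
        simp only [Fin.mk_one]; linarith
    set D := (b 0 - a 0) ^ 2 + (b 1 - a 1) ^ 2 with hD
    set t := ((c 0 - a 0) * (b 0 - a 0) + (c 1 - a 1) * (b 1 - a 1)) / D with ht
    unfold orient at h
    have hc : c = (1 - t) • a + t • b := by
      ext i
      fin_cases i
      · simp only [Fin.zero_eta, PiLp.add_apply, PiLp.smul_apply, smul_eq_mul]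
        rw [ht]; field_simp; rw [hD]
        linear_combination (b 1 - a 1) * (-1) * h
      · simp only [Fin.mk_one, PiLp.add_apply, PiLp.smul_apply, smul_eq_mul]
        rw [ht]; field_simp; rw [hD]
        linear_combination (b 0 - a 0) * h
    rcases le_or_gt t 0 with h1 | h1
    · left
      -- a between b and c
      have h1t : (1 - t) ≠ 0 := by linarith
      have hpos : 0 < 1 - t := by linarith
      refine hseg b c a (1 / (1 - t)) (by positivity) (by rw [div_le_one hpos]; linarith) ?_
      rw [hc, smul_add, smul_smul, smul_smul, one_div, inv_mul_cancel₀ h1t, one_smul]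
      have : (1 - (1 - t)⁻¹) • b + (a + ((1 - t)⁻¹ * t) • b) =
          a + ((1 - (1 - t)⁻¹) + (1 - t)⁻¹ * t) • b := by module
      rw [this]
      have : (1 - (1 - t)⁻¹) + (1 - t)⁻¹ * t = 0 := by field_simp; ring
      rw [this, zero_smul, add_zero]
    · rcases le_or_gt t 1 with h2 | h2
      · right; right
        exact hseg a b c t h1.le h2 hc
      · right; left
        refine hseg a c b (1 / t) (by positivity) (by rw [div_le_one h1]; linarith) ?_
        rw [hc, smul_add, smul_smul, smul_smul, one_div, inv_mul_cancel₀ h1.ne', one_smul]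
        have : (1 - t⁻¹) • a + ((t⁻¹ * (1 - t)) • a + b) =
            ((1 - t⁻¹) + t⁻¹ * (1 - t)) • a + b := by module
        rw [this]
        have : (1 - t⁻¹) + t⁻¹ * (1 - t) = 0 := by field_simp; ring
        rw [this, zero_smul, zero_add]


variable {n : ℕ} (p : Fin n → E2)

/-- strictly convex position -/
def CP : Prop := ∀ i : Fin n, p i ∉ convexHull ℝ (p '' {j : Fin n | j ≠ i})

variable {p}

lemma notTri (h : CP p) {a b c q : Fin n} (ha : a ≠ q) (hb : b ≠ q) (hc : c ≠ q) :
    p q ∉ convexHull ℝ {p a, p b, p c} := by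
  intro hq
  apply h q
  refine convexHull_mono ?_ hq
  rintro x (rfl | rfl | rfl)
  · exact ⟨a, ha, rfl⟩
  · exact ⟨b, hb, rfl⟩
  · exact ⟨c, hc, rfl⟩

lemma ne0 (h : CP p) {a b c : Fin n} (hab : a ≠ b) (hbc : b ≠ c) (hac : a ≠ c) :
    orient (p a) (p b) (p c) ≠ 0 := by
  intro h0
  rcases between _ _ _ h0 with h1 | h1 | h1
  · exact notTri h hab.symm hac.symm hac.symm h1
  · exact notTri h hab hbc.symm hbc.symm h1
  · exact notTri h hac hbc hbc h1

/-- no point in a triangle of other points: cyclic conditions -/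
lemma no4 (h : CP p) {a b c q : Fin n} (ha : a ≠ q) (hb : b ≠ q) (hc : c ≠ q)
    (h1 : 0 < orient (p a) (p b) (p q)) (h2 : 0 < orient (p b) (p c) (p q))
    (h3 : 0 < orient (p c) (p a) (p q)) : False := by
  have h4 : 0 < orient (p a) (p b) (p c) := by
    have := or_sum (p a) (p b) (p c) (p q)
    linarith
  exact notTri h ha hb hc ((tri_iff _ _ _ _ h4).2 ⟨h1.le, h2.le, h3.le⟩)

theorem reindex (h : CP p) : ∃ e : Fin n ≃ Fin n, ∀ i j k : Fin n, i < j → j < k →
    0 < orient (p (e i)) (p (e j)) (p (e k)) := by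
  classical
  rcases Nat.eq_zero_or_pos n with hn | hn
  · subst hn
    exact ⟨Equiv.refl _, fun i => i.elim0⟩
  let z : Fin n := ⟨0, hn⟩
  let lt : Fin n → Fin n → Prop := fun i j =>
    (i = z ∧ j ≠ z) ∨ (i ≠ z ∧ j ≠ z ∧ 0 < orient (p z) (p i) (p j))
  have irr : ∀ i, ¬ lt i i := by
    rintro i (⟨h1, h2⟩ | ⟨h1, h2, h3⟩)
    · exact h2 h1
    · rw [or_self2] at h3; exact lt_irrefl _ h3
  have tot : ∀ i j, i ≠ j → lt i j ∨ lt j i := by
    intro i j hij
    by_cases hi : i = z
    · left; left; exact ⟨hi, fun hj => hij (hi.trans hj.symm)⟩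
    by_cases hj : j = z
    · right; left; exact ⟨hj, hi⟩
    rcases lt_or_gt_of_ne (ne0 h (Ne.symm hi) hij (Ne.symm hj)) with h1 | h1
    · right; right; refine ⟨hj, hi, ?_⟩
      rw [or_swap']; linarith
    · left; right; exact ⟨hi, hj, h1⟩
  have trans : ∀ i j k, lt i j → lt j k → lt i k := by
    rintro i j k (⟨h1, h2⟩ | ⟨h1, h2, h3⟩) (⟨g1, g2⟩ | ⟨g1, g2, g3⟩)
    · exact absurd g1 h2
    · exact Or.inl ⟨h1, g2⟩
    · exact absurd g1 h2
    · right
      refine ⟨h1, g2, ?_⟩
      have hik : i ≠ k := by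
        rintro rfl
        rw [or_swap'] at g3
        linarith
      rcases lt_or_gt_of_ne (ne0 h (Ne.symm h1) hik (Ne.symm g2)) with h5 | h5
      · exfalso
        -- z is in the triangle i j k
        refine no4 h (a := i) (b := j) (c := k) (q := z) h1 h2 g2 ?_ ?_ ?_
        · rw [or_cyc]; exact h3
        · rw [or_cyc]; exact g3
        · rw [or_cyc, or_swap']; linarith
      · exact h5
  let rk0 : Fin n → ℕ := fun i => (Finset.univ.filter (fun j => lt j i)).card
  have rkmono : ∀ i j, lt i j → rk0 i < rk0 j := by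
    intro i j hij
    apply Finset.card_lt_card
    rw [Finset.ssubset_iff_of_subset]
    · exact ⟨i, by simp [hij], by simp [irr]⟩
    · intro k hk
      simp only [Finset.mem_filter, Finset.mem_univ, true_and] at hk ⊢
      exact trans k i j hk hij
  have rklt : ∀ i, rk0 i < n := by
    intro i
    have : (Finset.univ.filter (fun j => lt j i)).card < (Finset.univ : Finset (Fin n)).card := by
      apply Finset.card_lt_card
      rw [Finset.ssubset_iff_of_subset (Finset.filter_subset _ _)]
      exact ⟨i, Finset.mem_univ _, by simp [irr]⟩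
    simpa using this
  let rk : Fin n → Fin n := fun i => ⟨rk0 i, rklt i⟩
  have rkinj : Function.Injective rk := by
    intro i j hij
    by_contra hne
    have h0 : rk0 i = rk0 j := by simpa [rk] using congrArg Fin.val hij
    rcases tot i j hne with h1 | h1
    · have := rkmono _ _ h1; omega
    · have := rkmono _ _ h1; omega
  let e : Fin n ≃ Fin n := (Equiv.ofBijective rk (Finite.injective_iff_bijective.1 rkinj)).symm
  have he : ∀ i, rk (e i) = i := fun i =>
    (Equiv.ofBijective rk (Finite.injective_iff_bijective.1 rkinj)).apply_symm_apply i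
  have hlt : ∀ i j, i < j → lt (e i) (e j) := by
    intro i j hij
    have hne : e i ≠ e j := fun h => (ne_of_lt hij) (e.injective h)
    rcases tot _ _ hne with h1 | h1
    · exact h1
    · exfalso
      have h2 := rkmono _ _ h1
      have h3 : (rk (e i)).val = i.val := by rw [he]
      have h4 : (rk (e j)).val = j.val := by rw [he]
      have h5 : i.val < j.val := hij
      simp only [rk] at h3 h4
      omega
  refine ⟨e, fun i j k hij hjk => ?_⟩
  have h1 := hlt i j hij
  have h2 := hlt j k hjk
  have h3 := hlt i k (hij.trans hjk)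
  rcases h1 with ⟨a1, a2⟩ | ⟨a1, a2, a3⟩
  · rcases h2 with ⟨b1, b2⟩ | ⟨b1, b2, b3⟩
    · exact absurd b1 a2
    · rw [a1]; exact b3
  · rcases h2 with ⟨b1, b2⟩ | ⟨b1, b2, b3⟩
    · exact absurd b1 a2
    · rcases h3 with ⟨c1, c2⟩ | ⟨c1, c2, c3⟩
      · exact absurd c1 a1
      · have n1 : e i ≠ e j := fun h => (ne_of_lt hij) (e.injective h)
        have n2 : e j ≠ e k := fun h => (ne_of_lt hjk) (e.injective h)
        have n3 : e i ≠ e k := fun h => (ne_of_lt (hij.trans hjk)) (e.injective h)
        rcases lt_or_gt_of_ne (ne0 h n1 n2 n3) with h5 | h5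
        · exfalso
          refine no4 h (a := z) (b := e i) (c := e k) (q := e j) (Ne.symm a2) n1 n2.symm ?_ ?_ ?_
          · exact a3
          · rw [or_swap']; linarith
          · rw [← or_cyc]; exact b3
        · exact h5

end Pool.Agent.W866.ELV
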